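import Pool.Agent.Helper33.DA.AlgDiv

set_option autoImplicit false
set_option linter.unusedSimpArgs false

open scoped Manifold ContDiff

namespace Pool.Agent.Helper50.DA

open Pool.Agent.Helper8.DC Pool.Agent.Helper8.DA

noncomputable section

theorem d_pd_sum {κ : Type} (u : Finset κ) {V : Type} [NormedAddCommGroup V] [NormedSpace ℝ V]
    (l : Fin 4) {f : κ → E4 → V} {y : E4} (hf : ∀ k ∈ u, DifferentiableAt ℝ (f k) y) :
    pd l (fun z => ∑ k ∈ u, f k z) y = ∑ k ∈ u, pd l (f k) y := by
  unfold pd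
  rw [fderiv_fun_sum hf]
  simp

theorem d_pd_smul {V : Type} [NormedAddCommGroup V] [NormedSpace ℝ V] (l : Fin 4) {b : E4 → ℝ}
    {f : E4 → V} {y : E4} (hb : DifferentiableAt ℝ b y) (hf : DifferentiableAt ℝ f y) :
    pd l (fun z => b z • f z) y = pd l b y • f y + b y • pd l f y := by
  unfold pd
  rw [fderiv_fun_smul hb hf]
  simp [add_comm]

theorem d_trip (l : Fin 4) (β : Fin 4 → ℝ) {φ : E4 → R3} {α : E4 → Fin 4 → R3}
    {F : E4 → Fin 4 → Fin 4 → R3} {y : E4} (hφ : DifferentiableAt ℝ φ y)
    (hα : ∀ m, DifferentiableAt ℝ (fun z => α z m) y)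
    (hF : ∀ m n, DifferentiableAt ℝ (fun z => F z m n) y) :
    DifferentiableAt ℝ (fun z => trip (φ z) β (α z) (F z)) y ∧
      pd l (fun z => trip (φ z) β (α z) (F z)) y = trip (pd l φ y) β (α y) (F y) +
        trip (φ y) β (fun m => pd l (fun z => α z m) y) (F y) +
        trip (φ y) β (α y) (fun m n => pd l (fun z => F z m n) y) := by
  have dt : DifferentiableAt ℝ (fun z => trip (φ z) β (α z) (F z)) y := by
    have hw : ∀ b c : Fin 3, DifferentiableAt ℝ (fun z => wedge3 β
        (cm1 (α z) b) (cmp (F z) c)) y := by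
      intro b c
      have h1 : ∀ p q, DifferentiableAt ℝ
          (fun z => wed β (cm1 (α z) b) p q) y := fun p q =>
        ((differentiableAt_pi.mp (hα q) b).const_mul _).fun_sub
          ((differentiableAt_pi.mp (hα p) b).const_mul _)
      have h2 : ∀ p q, DifferentiableAt ℝ (fun z => cmp (F z) c p q) y := fun p q =>
        differentiableAt_pi.mp (hF p q) c
      unfold wedge3 wedge
      exact ((((((h1 0 1).fun_mul (h2 2 3)).fun_sub ((h1 0 2).fun_mul (h2 1 3))).fun_add
        ((h1 0 3).fun_mul (h2 1 2))).fun_add ((h1 1 2).fun_mul (h2 0 3))).fun_sub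
        ((h1 1 3).fun_mul (h2 0 2))).fun_add ((h1 2 3).fun_mul (h2 0 1))
    have hp := differentiableAt_pi.mp hφ
    unfold trip
    exact (((hp 0).fun_mul ((hw 1 2).fun_sub (hw 2 1))).fun_add
      ((hp 1).fun_mul ((hw 2 0).fun_sub (hw 0 2)))).fun_add
      ((hp 2).fun_mul ((hw 0 1).fun_sub (hw 1 0)))
  refine ⟨dt, ?_⟩
  have hv := g_trip_line β (φ := fun t : ℝ => φ (y + t • EuclideanSpace.single l 1))
    (φ' := pd l φ y)
    (α := fun t : ℝ => α (y + t • EuclideanSpace.single l 1))
    (α' := fun m => pd l (fun z => α z m) y)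
    (F := fun t : ℝ => F (y + t • EuclideanSpace.single l 1))
    (F' := fun m n => pd l (fun z => F z m n) y)
    (fun a => hasDerivAt_pi.mp (g_line l hφ) a)
    (fun m a => hasDerivAt_pi.mp (g_line l (hα m)) a)
    (fun m n a => hasDerivAt_pi.mp (g_line l (hF m n)) a)
  have := g_pd_of_line l dt hv
  rw [this]
  simp

theorem div_vecL_of {N : ℕ} (A : E4 → Fin 4 → R3) (B : E4 → Fin 4 → Matrix (Fin N) (Fin N) ℝ)
    (s : E4 → Fin N → R3) (U : Set E4) (hU : IsOpen U) (hA : ContDiffOn ℝ ∞ A U)
    (hB : ∀ m r t, ContDiffOn ℝ ∞ (fun y => B y m r t) U) (hs : ContDiffOn ℝ ∞ s U) (y : E4)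
    (hy : y ∈ U) (hskew : ∀ m r t, B y m r t = -B y m t r) (hasd : AntiSelfDualAt A B y)
    (alg_div : ∀ (A : Fin 4 → R3) (B : Fin 4 → Matrix (Fin N) (Fin N) ℝ)
      (_ : ∀ m r t, B m r t = -B m t r) (G : Fin N → Fin N → Fin 4 → Fin 4 → ℝ)
      (_ : ∀ r t l m, G r t l m = -G r t m l) (φ : Fin N → R3) (c : Fin N → Fin 4 → R3)
      (dc : Fin N → Fin 4 → Fin 4 → R3) (F : Fin 4 → Fin 4 → R3)
      (dF : Fin 4 → Fin 4 → Fin 4 → R3) (_ : ∀ l m, F l m = -F m l)
      (_ : ∀ k l m, dF k l m = -dF k m l)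
      (_ : ∀ r l m, dc r l m - dc r m l + crossProduct (A l) (c r m) - crossProduct (A m) (c r l) +
        ∑ t, (B l r t • c t m - B m r t • c t l) = crossProduct (F l m) (φ r) + ∑ t, G r t l m • φ t)
      (_ : ∀ l m n, dF l m n + dF m n l + dF n l m + crossProduct (A l) (F m n) +
        crossProduct (A m) (F n l) + crossProduct (A n) (F l m) = 0)
      (_ : ∀ r t b, wedge (G r t) (cmp F b) = 0),
      ∑ l, ∑ r, (trip (c r l - crossProduct (A l) (φ r) - ∑ t, B l r t • φ t)
          (Pi.single l 1) (c r) F +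
        trip (φ r) (Pi.single l 1) (dc r l) F + trip (φ r) (Pi.single l 1) (c r) (dF l)) =
        ∑ r, (quad (c r) F + rest (φ r) F)) :
    ∑ l, pd l (fun z => vecL A B s z l) y =
      ∑ r, (quad (covL A B s y r) (curv A y) + rest (s y r) (curv A y)) := by
  have sA : ∀ m, ContDiffOn ℝ ∞ (fun z => A z m) U := fun m => contDiffOn_pi.mp hA m
  have dA : ∀ m, DifferentiableAt ℝ (fun z => A z m) y := fun m => g_sm_diff hU (sA m) hy
  have ss : ∀ r, ContDiffOn ℝ ∞ (fun z => s z r) U := fun r => contDiffOn_pi.mp hs r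
  have ds : ∀ r, DifferentiableAt ℝ (fun z => s z r) y := fun r => g_sm_diff hU (ss r) hy
  have dB : ∀ m r t, DifferentiableAt ℝ (fun z => B z m r t) y := fun m r t =>
    g_sm_diff hU (hB m r t) hy
  have dps : ∀ r m, DifferentiableAt ℝ (fun z => pd m (fun w => s w r) z) y := fun r m =>
    g_sm_diff hU (g_sm_pd m hU (ss r)) hy
  have dpA : ∀ k m, DifferentiableAt ℝ (fun z => pd k (fun w => A w m) z) y := fun k m =>
    g_sm_diff hU (g_sm_pd k hU (sA m)) hy
  have dcov : ∀ r m, DifferentiableAt ℝ (fun z => cov A (fun w => s w r) z m) y := fun r m =>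
    (dps r m).fun_add (g_cross_diff (dA m) (ds r))
  have dBs : ∀ r m t, DifferentiableAt ℝ (fun z => B z m r t • s z t) y := fun r m t =>
    (dB m r t).fun_smul (ds t)
  have dBS : ∀ r m, DifferentiableAt ℝ (fun z => ∑ t, B z m r t • s z t) y := fun r m =>
    DifferentiableAt.fun_sum fun t _ => dBs r m t
  have dcovL : ∀ r m, DifferentiableAt ℝ (fun z => covL A B s z r m) y := fun r m =>
    (dcov r m).fun_add (dBS r m)
  have dcurv : ∀ m n, DifferentiableAt ℝ (fun z => curv A z m n) y := fun m n =>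
    ((dpA m n).fun_sub (dpA n m)).fun_add (g_cross_diff (dA m) (dA n))
  have pcov : ∀ r l m, pd l (fun z => covL A B s z r m) y =
      pd l (fun z => pd m (fun w => s w r) z) y +
      (crossProduct (pd l (fun z => A z m) y) (s y r) +
        crossProduct (A y m) (pd l (fun z => s z r) y)) +
      ∑ t, (pd l (fun z => B z m r t) y • s y t + B y m r t • pd l (fun z => s z t) y) := by
    intro r l m
    unfold covL
    rw [g_pd_add l (dcov r m) (dBS r m), d_pd_sum _ l (fun t _ => dBs r m t)]
    congr 1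
    · unfold cov
      rw [g_pd_add l (dps r m) (g_cross_diff (dA m) (ds r)), g_pd_cross l (dA m) (ds r)]
    · exact Finset.sum_congr rfl fun t _ => d_pd_smul l (dB m r t) (ds t)
  have pcurv : ∀ l m n, pd l (fun z => curv A z m n) y =
      pd l (fun z => pd m (fun w => A w n) z) y - pd l (fun z => pd n (fun w => A w m) z) y +
      (crossProduct (pd l (fun z => A z m) y) (A y n) +
        crossProduct (A y m) (pd l (fun z => A z n) y)) := by
    intro l m n
    unfold curv
    rw [g_pd_add l ((dpA m n).fun_sub (dpA n m)) (g_cross_diff (dA m) (dA n)),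
      g_pd_sub l (dpA m n) (dpA n m), g_pd_cross l (dA m) (dA n)]
  have e1 : ∀ r l, pd l (fun z => s z r) y =
      covL A B s y r l - crossProduct (A y l) (s y r) - ∑ t, B y l r t • s y t := by
    intro r l
    unfold covL cov
    abel
  have key : ∀ l, pd l (fun z => vecL A B s z l) y =
      ∑ r, (trip (covL A B s y r l - crossProduct (A y l) (s y r) - ∑ t, B y l r t • s y t)
          (Pi.single l 1) (covL A B s y r) (curv A y) +
        trip (s y r) (Pi.single l 1) (fun m => pd l (fun z => covL A B s z r m) y) (curv A y) +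
        trip (s y r) (Pi.single l 1) (covL A B s y r)
          (fun m n => pd l (fun z => curv A z m n) y)) := by
    intro l
    have ht := fun r => d_trip l (Pi.single l 1) (φ := fun z => s z r)
      (α := fun z => covL A B s z r) (F := fun z => curv A z) (y := y) (ds r) (dcovL r) dcurv
    unfold vecL
    rw [d_pd_sum _ l (fun r _ => (ht r).1)]
    refine Finset.sum_congr rfl fun r _ => ?_
    rw [(ht r).2, e1]
  simp only [key]
  refine alg_div (A y) (B y) hskew (mcurv B y) ?_ (s y) (covL A B s y)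
    (fun r l m => pd l (fun z => covL A B s z r m) y) (curv A y)
    (fun l m n => pd l (fun z => curv A z m n) y) ?_ ?_ ?_ ?_ hasd
  · intro r t l m
    simp only [mcurv, Matrix.sub_apply]
    ring
  · intro l m
    unfold curv
    rw [← cross_anticomm (A y m) (A y l)]
    abel
  · intro k l m
    simp only [pcurv]
    rw [← cross_anticomm (A y m) (pd k (fun z => A z l) y),
      ← cross_anticomm (pd k (fun z => A z m) y) (A y l)]
    abel
  · intro r l m
    simp only [pcov]
    rw [g_pd_comm m l hU (ss r) hy]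
    have hG : ∀ t, mcurv B y r t l m = pd l (fun z => B z m r t) y - pd m (fun z => B z l r t) y +
        (∑ u, B y l r u * B y m u t - ∑ u, B y m r u * B y l u t) := by
      intro t
      simp only [mcurv, Matrix.sub_apply, Matrix.mul_apply]
    simp only [hG]
    unfold covL cov curv
    funext a
    simp only [Pi.add_apply, Pi.sub_apply, Finset.sum_apply, Pi.smul_apply, smul_eq_mul, map_add,
      map_sum, LinearMap.map_smul, Finset.sum_add_distrib, Finset.sum_sub_distrib, add_mul, sub_mul,
      mul_add, Finset.sum_mul, Finset.mul_sum]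
    have hsw : ∀ p q : Fin 4, ∑ t, ∑ u, B y p r t * (B y q t u * s y u a) =
        ∑ t, ∑ u, B y p r u * B y q u t * s y t a := by
      intro p q
      rw [Finset.sum_comm]
      refine Finset.sum_congr rfl fun t _ => Finset.sum_congr rfl fun u _ => ?_
      ring
    rw [hsw, hsw]
    have hj : ∀ u v w : R3, crossProduct u (crossProduct v w) a -
        crossProduct v (crossProduct u w) a = crossProduct (crossProduct u v) w a := by
      intro u v w
      fin_cases a <;>
      · simp only [Fin.mk_zero, Fin.mk_one, Fin.reduceFinMk, Fin.zero_eta, g_cr0, g_cr1, g_cr2]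
        ring
    simp only [map_sub, LinearMap.add_apply, LinearMap.sub_apply, Pi.add_apply, Pi.sub_apply]
    linear_combination hj (A y l) (A y m) (s y r)
  · intro l m n
    simp only [pcurv]
    rw [g_pd_comm m l hU (sA n) hy, g_pd_comm n l hU (sA m) hy, g_pd_comm n m hU (sA l) hy]
    unfold curv
    funext a
    fin_cases a <;>
    · simp only [Pi.add_apply, Pi.sub_apply, Pi.zero_apply, Fin.mk_zero, Fin.mk_one,
        Fin.reduceFinMk, Fin.zero_eta, g_cr0, g_cr1, g_cr2]
      ring

theorem div_vecL {N : ℕ} (A : E4 → Fin 4 → R3) (B : E4 → Fin 4 → Matrix (Fin N) (Fin N) ℝ)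
    (s : E4 → Fin N → R3) (U : Set E4) (hU : IsOpen U) (hA : ContDiffOn ℝ ∞ A U)
    (hB : ∀ m r t, ContDiffOn ℝ ∞ (fun y => B y m r t) U) (hs : ContDiffOn ℝ ∞ s U) (y : E4)
    (hy : y ∈ U) (hskew : ∀ m r t, B y m r t = -B y m t r) (hasd : AntiSelfDualAt A B y) :
    ∑ l, pd l (fun z => vecL A B s z l) y =
      ∑ r, (quad (covL A B s y r) (curv A y) + rest (s y r) (curv A y)) :=
  div_vecL_of A B s U hU hA hB hs y hy hskew hasd Pool.Agent.Helper33.DA.alg_div

end

end Pool.Agent.Helper50.DA
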